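import Pool.Agent.MP_2877d0_al.Main

namespace Pool.Agent.MP_2877d0_al.Old.FailsFrom16

theorem result (n : ℕ) (hn : 16 ≤ n) :
    ¬ ∀ g : GL (Fin n) ℝ, ∃ (d o u : GL (Fin n) ℝ) (γ : GL (Fin n) ℤ),
      (d : Matrix (Fin n) (Fin n) ℝ).IsDiag ∧
      (o : Matrix (Fin n) (Fin n) ℝ) ∈ Matrix.orthogonalGroup (Fin n) ℝ ∧
      ((∀ i j, j < i → (u : Matrix (Fin n) (Fin n) ℝ) i j = 0) ∧
        ∀ i, (u : Matrix (Fin n) (Fin n) ℝ) i i = 1) ∧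
      g = d * o * u * Matrix.GeneralLinearGroup.map (Int.castRingHom ℝ) γ :=
  fun h => Pool.Agent.MP_2877d0_al.not_dec hn (Pool.Agent.MP_2877d0_al.dec_iff.mpr h)

end Pool.Agent.MP_2877d0_al.Old.FailsFrom16
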